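import Mathlib

open Finset

namespace Pool.Agent.Results.MP_35c2f5_co.OneFeedbackArc

/-- tournaments, as irreflexive relations with exactly one arc between two distinct vertices -/
def IsTournament {V : Type} (r : V → V → Prop) : Prop :=
  (∀ x, ¬ r x x) ∧ ∀ x y, x ≠ y → (r x y ↔ ¬ r y x)

/-- `S` contains an induced copy of `T` -/
def Contains {V : Type} {h : ℕ} (T : Fin h → Fin h → Prop) (S : V → V → Prop) : Prop :=
  ∃ φ : Fin h → V, Function.Injective φ ∧ ∀ i j, T i j ↔ S (φ i) (φ j)

/-- a nonempty set of arcs of `S`, finitely many at each vertex -/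
def LocallyFiniteArcs (S F : ℕ → ℕ → Prop) : Prop :=
  (∀ x y, F x y → S x y) ∧ (∃ x y, F x y) ∧ ∀ v, {u | F v u ∨ F u v}.Finite

/-- reverse the arcs in `F` -/
def reverse (S F : ℕ → ℕ → Prop) (x y : ℕ) : Prop := (S x y ∧ ¬ F x y) ∨ F y x

/-- the conclusion of Q1 for `T` -/
def Saturable {h : ℕ} (T : Fin h → Fin h → Prop) : Prop :=
  ∃ S : ℕ → ℕ → Prop, IsTournament S ∧ ¬ Contains T S ∧
    ∀ F : ℕ → ℕ → Prop, LocallyFiniteArcs S F → Contains T (reverse S F)

/-- `T` arises from a linear order by reversing exactly one arc -/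
def OneFeedback {h : ℕ} (T : Fin h → Fin h → Prop) : Prop :=
  ∃ (e : Fin h → Fin h) (a b : Fin h), Function.Injective e ∧ e a < e b ∧
    ∀ i j, T i j ↔ (e i < e j ∧ ¬ (i = a ∧ j = b)) ∨ (i = b ∧ j = a)

/-- **Theorem.** -/
theorem result (h : ℕ) (T : Fin h → Fin h → Prop) (hT : IsTournament T)
    (hnt : ¬ ∀ x y z, T x y → T y z → T x z) (h1 : OneFeedback T) : Saturable T := by
  classical
  obtain ⟨e, a, b, he, hab, hTe⟩ := h1
  have hne : a ≠ b := by rintro rfl; exact lt_irrefl _ hab
  obtain ⟨v, hv⟩ : ∃ v : ℕ → ℚ, Function.Bijective v :=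
    ⟨fun n => (Denumerable.eqv ℚ).symm n, (Denumerable.eqv ℚ).symm.bijective⟩
  refine ⟨fun x y => v x < v y, ⟨fun x => lt_irrefl _, ?_⟩, ?_, ?_⟩
  · intro x y hxy
    have : v x ≠ v y := fun h => hxy (hv.1 h)
    rw [not_lt]
    exact ⟨le_of_lt, fun h => lt_of_le_of_ne h this⟩
  · rintro ⟨φ, _, hφ⟩
    apply hnt
    intro x y z hxy hyz
    rw [hφ] at hxy hyz ⊢
    exact lt_trans hxy hyz
  · rintro F ⟨hFS, ⟨x, y, hF⟩, hfin⟩
    have hxy : v x < v y := hFS x y hF
    -- target points
    set d : ℚ := (v y - v x) / (((e b : ℕ) : ℚ) - ((e a : ℕ) : ℚ)) with hd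
    have hba : (0 : ℚ) < ((e b : ℕ) : ℚ) - ((e a : ℕ) : ℚ) := by
      have : (e a : ℕ) < (e b : ℕ) := hab
      have : ((e a : ℕ) : ℚ) < ((e b : ℕ) : ℚ) := by exact_mod_cast this
      linarith
    have hdpos : 0 < d := div_pos (by linarith) hba
    set P : Fin h → ℚ := fun i => v x + (((e i : ℕ) : ℚ) - ((e a : ℕ) : ℚ)) * d with hP
    have hPa : P a = v x := by rw [hP]; simp
    have hPb : P b = v y := by
      rw [hP]; simp only
      rw [hd, mul_div_cancel₀ _ hba.ne']
      ring
    have hPlt : ∀ i j, e i < e j → P i + d ≤ P j := by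
      intro i j hij
      have h2 : (e i : ℕ) + 1 ≤ (e j : ℕ) := hij
      have h3 : ((e i : ℕ) : ℚ) + 1 ≤ ((e j : ℕ) : ℚ) := by exact_mod_cast h2
      rw [hP]; simp only
      nlinarith
    have main : ∀ J : Finset (Fin h), ∃ φ : Fin h → ℕ, φ a = x ∧ φ b = y ∧
        (∀ i, P i ≤ v (φ i) ∧ v (φ i) < P i + d) ∧
        ∀ i ∈ J, i ≠ a → i ≠ b → ∀ j, (j ∈ J ∨ j = a ∨ j = b) →
          ¬ F (φ i) (φ j) ∧ ¬ F (φ j) (φ i) := by
      intro J
      induction J using Finset.induction_on with
      | empty =>
        have hex : ∀ i, ∃ n, v n = P i := fun i => hv.2 (P i)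
        choose φ hφ using hex
        refine ⟨φ, hv.1 (by rw [hφ, hPa]), hv.1 (by rw [hφ, hPb]), fun i => ?_, by simp⟩
        rw [hφ]
        exact ⟨le_rfl, by linarith⟩
      | insert j0 J hj0 ih =>
        obtain ⟨φ, hφa, hφb, hφP, hQ⟩ := ih
        by_cases hcase : j0 = a ∨ j0 = b
        · refine ⟨φ, hφa, hφb, hφP, ?_⟩
          intro i hi hia hib j hj
          rcases Finset.mem_insert.1 hi with rfl | hi
          · rcases hcase with h2 | h2
            · exact absurd h2 hia
            · exact absurd h2 hib
          · apply hQ i hi hia hib j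
            rcases hj with hj | hj
            · rcases Finset.mem_insert.1 hj with rfl | hj
              · exact Or.inr hcase
              · exact Or.inl hj
            · exact Or.inr hj
        · push Not at hcase
          have hbad : (⋃ i : Fin h, {u | F (φ i) u ∨ F u (φ i)}).Finite :=
            Set.finite_iUnion fun i => hfin (φ i)
          have hinf : (v ⁻¹' Set.Ioo (P j0) (P j0 + d)).Infinite :=
            (Set.Ioo_infinite (by linarith)).preimage (fun q _ => hv.2 q)
          obtain ⟨m, hm, hmB⟩ := hinf.exists_notMem_finite hbad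
          have hFm : ∀ i, ¬ F (φ i) m ∧ ¬ F m (φ i) := fun i =>
            ⟨fun h2 => hmB (Set.mem_iUnion.2 ⟨i, Or.inl h2⟩),
              fun h2 => hmB (Set.mem_iUnion.2 ⟨i, Or.inr h2⟩)⟩
          have hup : Function.update φ j0 m j0 = m := Function.update_self _ _ _
          have hup' : ∀ i, i ≠ j0 → Function.update φ j0 m i = φ i := fun i hi =>
            Function.update_of_ne hi _ _
          refine ⟨Function.update φ j0 m, ?_, ?_, ?_, ?_⟩
          · rw [hup' a (Ne.symm hcase.1)]; exact hφa
          · rw [hup' b (Ne.symm hcase.2)]; exact hφb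
          · intro i
            by_cases hi : i = j0
            · rw [hi, hup]
              exact ⟨hm.1.le, hm.2⟩
            · rw [hup' i hi]; exact hφP i
          · intro i hi hia hib j hj
            by_cases hij0 : i = j0
            · rw [hij0, hup]
              by_cases hj0' : j = j0
              · rw [hj0', hup]
                exact ⟨fun h => lt_irrefl _ (hFS _ _ h), fun h => lt_irrefl _ (hFS _ _ h)⟩
              · rw [hup' j hj0']
                exact ⟨(hFm j).2, (hFm j).1⟩
            · rw [hup' i hij0]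
              by_cases hj0' : j = j0
              · rw [hj0', hup]
                exact hFm i
              · rw [hup' j hj0']
                have hiJ : i ∈ J := by
                  rcases Finset.mem_insert.1 hi with h2 | h2
                  · exact absurd h2 hij0
                  · exact h2
                apply hQ i hiJ hia hib j
                rcases hj with hj | hj
                · rcases Finset.mem_insert.1 hj with h2 | h2
                  · exact absurd h2 hj0'
                  · exact Or.inl h2
                · exact Or.inr hj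
    obtain ⟨φ, hφa, hφb, hφP, hQ⟩ := main univ
    have hlt : ∀ i j, e i < e j → v (φ i) < v (φ j) := fun i j hij =>
      lt_of_lt_of_le (hφP i).2 (le_trans (hPlt i j hij) (hφP j).1)
    have hiff : ∀ i j, v (φ i) < v (φ j) ↔ e i < e j := by
      intro i j
      constructor
      · intro h2
        rcases lt_trichotomy (e i) (e j) with h3 | h3 | h3
        · exact h3
        · rw [he h3] at h2; exact absurd h2 (lt_irrefl _)
        · exact absurd (hlt j i h3) (not_lt.2 h2.le)
      · exact hlt i j
    have hFba : ¬ F y x := fun h2 => absurd (hFS _ _ h2) (not_lt.2 hxy.le)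
    have hF' : ∀ i j, F (φ i) (φ j) ↔ (i = a ∧ j = b) := by
      intro i j
      constructor
      · intro h2
        by_cases hi : i = a ∨ i = b
        · by_cases hj : j = a ∨ j = b
          · rcases hi with rfl | rfl <;> rcases hj with rfl | rfl
            · exact absurd (hFS _ _ h2) (lt_irrefl _)
            · exact ⟨rfl, rfl⟩
            · rw [hφa, hφb] at h2; exact absurd h2 hFba
            · exact absurd (hFS _ _ h2) (lt_irrefl _)
          · push Not at hj
            exact absurd h2 (hQ j (Finset.mem_univ j) hj.1 hj.2 i (Or.inl (Finset.mem_univ i))).2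
        · push Not at hi
          exact absurd h2 (hQ i (Finset.mem_univ i) hi.1 hi.2 j (Or.inl (Finset.mem_univ j))).1
      · rintro ⟨rfl, rfl⟩
        rw [hφa, hφb]; exact hF
    refine ⟨φ, ?_, ?_⟩
    · intro i j hij
      by_contra hcon
      have h2 : e i ≠ e j := fun h => hcon (he h)
      rcases lt_or_gt_of_ne h2 with h3 | h3
      · have := hlt i j h3
        rw [hij] at this
        exact lt_irrefl _ this
      · have := hlt j i h3
        rw [hij] at this
        exact lt_irrefl _ this
    · intro i j
      rw [hTe]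
      unfold reverse
      rw [hF', hF']
      show _ ↔ (v (φ i) < v (φ j) ∧ ¬ (i = a ∧ j = b)) ∨ (j = a ∧ i = b)
      rw [hiff]
      tauto

end Pool.Agent.Results.MP_35c2f5_co.OneFeedbackArc
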