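import Mathlib
import Pool.Agent.X147.TqC

namespace Pool.Agent.Results.MP_35c2f5_co.PrimeAndTwinFree

/-- tournaments, as irreflexive relations with exactly one arc between two distinct vertices -/
def IsTournament {V : Type} (r : V → V → Prop) : Prop :=
  (∀ x, ¬ r x x) ∧ ∀ x y, x ≠ y → (r x y ↔ ¬ r y x)

/-- `S` contains an induced copy of `T` -/
def Contains {V : Type} {h : ℕ} (T : Fin h → Fin h → Prop) (S : V → V → Prop) : Prop :=
  ∃ φ : Fin h → V, Function.Injective φ ∧ ∀ i j, T i j ↔ S (φ i) (φ j)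

/-- a nonempty set of arcs of `S`, finitely many at each vertex -/
def LocallyFiniteArcs (S F : ℕ → ℕ → Prop) : Prop :=
  (∀ x y, F x y → S x y) ∧ (∃ x y, F x y) ∧ ∀ v, {u | F v u ∨ F u v}.Finite

/-- reverse the arcs in `F` -/
def reverse (S F : ℕ → ℕ → Prop) (x y : ℕ) : Prop := (S x y ∧ ¬ F x y) ∨ F y x

/-- the conclusion of Q1 for `T` -/
def Saturable {h : ℕ} (T : Fin h → Fin h → Prop) : Prop :=
  ∃ S : ℕ → ℕ → Prop, IsTournament S ∧ ¬ Contains T S ∧
    ∀ F : ℕ → ℕ → Prop, LocallyFiniteArcs S F → Contains T (reverse S F)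

/-- homogeneous sets -/
def IsModule {h : ℕ} (T : Fin h → Fin h → Prop) (M : Set (Fin h)) : Prop :=
  ∀ v, v ∉ M → ∀ m ∈ M, ∀ m' ∈ M, (T v m ↔ T v m')

/-- every homogeneous set has at most one element or is everything -/
def PrimeTournament {h : ℕ} (T : Fin h → Fin h → Prop) : Prop :=
  ∀ M : Set (Fin h), IsModule T M → (∀ x ∈ M, ∀ y ∈ M, x = y) ∨ (∀ x, x ∈ M)

/-- no homogeneous set with exactly two elements -/
def TwinFree {h : ℕ} (T : Fin h → Fin h → Prop) : Prop :=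
  ∀ i j, i ≠ j → ∃ v, v ≠ i ∧ v ≠ j ∧ ¬ (T v i ↔ T v j)

/-- the vertex set is a union of two parts on which the arc relation is transitive -/
def TwoTransitiveParts {h : ℕ} (T : Fin h → Fin h → Prop) : Prop :=
  ∃ σ : Fin h → Bool, ∀ x y z, σ x = σ y → σ y = σ z → T x y → T y z → T x z

/-- the vertex set has a partition into two nonempty parts neither of which contains an induced
copy of a nontrivial homogeneous set of `T` -/
def Splittable {h : ℕ} (T : Fin h → Fin h → Prop) : Prop :=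
  ∃ σ : Fin h → Bool, (∃ i, σ i = true) ∧ (∃ i, σ i = false) ∧
    ∀ M : Set (Fin h), IsModule T M → (∃ x ∈ M, ∃ y ∈ M, x ≠ y) → (∃ x, x ∉ M) → ∀ s : Bool,
      ¬ ∃ γ : Fin h → Fin h, (∀ i ∈ M, σ (γ i) = s) ∧
        ∀ i ∈ M, ∀ j ∈ M, (T i j ↔ T (γ i) (γ j))

lemma inj_of {V : Type} {h : ℕ} {T : Fin h → Fin h → Prop} (hT : IsTournament T)
    {S : V → V → Prop} {φ : Fin h → V} (hφ : ∀ i j, T i j ↔ S (φ i) (φ j)) :
    Function.Injective φ := by
  intro i j hij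
  by_contra hne
  have h1 := hT.2 i j hne
  rw [hφ, hφ, hij] at h1
  exact iff_not_self h1

lemma finish {h : ℕ} {T : Fin h → Fin h → Prop} (hT : IsTournament T)
    (hex : ∃ S : ℕ → ℕ → Prop, (∀ x, ¬ S x x) ∧ (∀ x y, x ≠ y → (S x y ↔ ¬ S y x)) ∧
      (¬ ∃ φ : Fin h → ℕ, ∀ i j, T i j ↔ S (φ i) (φ j)) ∧
      (∀ w N, ∃ m, N ≤ m ∧ ∀ x, x < N → x ≠ w → (S m x ↔ S w x) ∧ (S x m ↔ S x w)) ∧
      (∀ a b, S a b → ∃ ψ : Fin h → ℕ, ∀ i j,
        T i j ↔ Pool.Agent.X147.Tp.flip a b S (ψ i) (ψ j))) : Saturable T := by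
  obtain ⟨S, hS1, hS2, hfree, hclone, hcrit⟩ := hex
  refine ⟨S, ⟨hS1, hS2⟩, ?_, ?_⟩
  · rintro ⟨φ, _, hφ⟩
    exact hfree ⟨φ, hφ⟩
  · rintro F ⟨hFS, hFne, hFfin⟩
    obtain ⟨φ, hφ⟩ := Pool.Agent.X147.Tp.saturate hS1 hS2 hT.1 hT.2 hclone hcrit hFS hFne hFfin
    exact ⟨φ, inj_of (S := reverse S F) hT hφ, hφ⟩

/-- **Theorem.** -/
theorem result (h : ℕ) (h3 : 3 ≤ h) (T : Fin h → Fin h → Prop) (hT : IsTournament T) :
    (PrimeTournament T → Saturable T) ∧
    (TwinFree T → TwoTransitiveParts T → Saturable T) ∧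
    (TwinFree T → Splittable T → Saturable T) := by
  classical
  refine ⟨?_, ?_, ?_⟩
  · intro hp
    exact finish hT (Pool.Agent.X147.Tp.exists_generic hT.1 hT.2 h3 hp)
  · rintro htf ⟨σ, hσ⟩
    refine finish hT (Pool.Agent.X147.Tp.exists_generic' hT.1 hT.2 h3 htf (σ := σ) ?_)
    rintro M hM s ⟨γ, hγ1, hγ2⟩
    by_contra hcon
    push Not at hcon
    obtain ⟨x, hx, y, hy, hxy⟩ := hcon
    obtain ⟨i, j, hij, htw⟩ := Pool.Agent.X147.Tp.twins_of_transitive hT.2 M.toFinset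
      (fun v hv m hm m' hm' => hM v (fun h => hv (Set.mem_toFinset.2 h)) m
        (Set.mem_toFinset.1 hm) m' (Set.mem_toFinset.1 hm'))
      (Set.mem_toFinset.2 hx) (Set.mem_toFinset.2 hy) hxy
      (fun p hp q hq r hr hpq hqr => by
        rw [Set.mem_toFinset] at hp hq hr
        rw [hγ2 p hp r hr]
        rw [hγ2 p hp q hq] at hpq
        rw [hγ2 q hq r hr] at hqr
        exact hσ _ _ _ ((hγ1 p hp).trans (hγ1 q hq).symm) ((hγ1 q hq).trans (hγ1 r hr).symm)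
          hpq hqr)
    obtain ⟨v, hv1, hv2, hv3⟩ := htf i j hij
    exact hv3 (htw v hv1 hv2)
  · rintro htf ⟨σ, ⟨i1, hi1⟩, ⟨i2, hi2⟩, hσ⟩
    refine finish hT (Pool.Agent.X147.Tp.exists_generic' hT.1 hT.2 h3 htf (σ := σ) ?_)
    rintro M hM s ⟨γ, hγ1, hγ2⟩
    by_contra hcon
    push Not at hcon
    by_cases huniv : ∃ x, x ∉ M
    · exact hσ M hM hcon huniv s ⟨γ, hγ1, hγ2⟩
    · push Not at huniv
      have hinj : Function.Injective γ := by
        intro i j hij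
        by_contra hne
        have h1 := hT.2 i j hne
        rw [hγ2 i (huniv i) j (huniv j), hγ2 j (huniv j) i (huniv i), hij] at h1
        exact iff_not_self h1
      have hsurj := Finite.injective_iff_surjective.1 hinj
      obtain ⟨j1, hj1⟩ := hsurj i1
      obtain ⟨j2, hj2⟩ := hsurj i2
      have e1 := hγ1 j1 (huniv j1)
      have e2 := hγ1 j2 (huniv j2)
      rw [hj1, hi1] at e1
      rw [hj2, hi2] at e2
      rw [← e1] at e2
      exact absurd e2 (by simp)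

end Pool.Agent.Results.MP_35c2f5_co.PrimeAndTwinFree
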